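import Pool.Agent.L0h41.GN.F8

set_option autoImplicit false

/-!
# Simultaneous almost prime values of ARBITRARY polynomials along `x + y = n`, for almost all `n`

Let `f_1, …, f_m` in `ℤ[x, y]` be nonconstant polynomials without a nonconstant factor in `x + y`: no other
condition. (Every admissible family of the problem satisfies this: were `f_k = d(x + y) g(x, y)` with `d` not
constant, then `f_k(x, n - x) = d(n) g(x, n - x)` would be reducible in `ℤ[x]` for infinitely many `n`.) Let `D ≥ 1`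
be the sum of the degrees in `y`, `g` a bound for the degree of the product in `x`, and `0 < θ ≤ 1`. There are `R` and
`δ > 0`, which depend only on `D`, `g` and `θ`, such that, for all `κ, ε > 0` and `B`, all large `N`, all intervals
`(Z, Z + L]` of length `L ≥ N^θ` below `N` and all `T` between `(log N)^(D + κ)` and `(log N)^B`: all but at most
`ε L` of the integers `n` in the interval for which no prime divides all the numbers `∏ f_k(x, n - x)` have at least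
`T / (log N)^(D + κ)` representations `n = x + y` with `x, y ≥ 1`, `x ≤ T`, such that all the `|f_k(x, y)|` are `≥ 2`,
their product has at most `R` prime factors, counted with multiplicity, all of them `≥ T^δ`, and all the prime factors
of `f_k(x, y)` are `≥ N^δ` for the `k` for which `f_k` has no nonconstant factor in `x` alone.

Proof: `f_k(x, n - x) = a_k(x) P_k(x, n)`, `P_k` without a factor in `x` or in `n` alone. For fixed small `x` the
number `∏ P_k(x, n)` is the value at `n` of a polynomial of degree `D`; the second moment over `n` of the number of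
the `x ≤ T` with no small prime factors, and weights of Brun and Hooley for the larger primes; `Pool/Agent/L0h41/GN`.
-/

namespace Pool.Agent.Results.MP_0da313_nt.AllFamilies

open Finset Polynomial
open scoped Polynomial.Bivariate
open Pool.Agent.L0h41.GN

/-- `f` has a nonconstant factor in `x + y`: `f(x, y) = d(x + y) g(x, y)`. -/
def SumFactor (f : ℤ[X][Y]) : Prop := ∃ (d : ℤ[X]) (g : ℤ[X][Y]), 0 < d.natDegree ∧
  ∀ x y : ℤ, f.evalEval x y = d.eval (x + y) * g.evalEval x y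

/-- `f` has a nonconstant factor in `x` alone: `f(x, y) = d(x) g(x, y)`. -/
def XFactor (f : ℤ[X][Y]) : Prop := ∃ (d : ℤ[X]) (g : ℤ[X][Y]), 0 < d.natDegree ∧
  ∀ x y : ℤ, f.evalEval x y = d.eval x * g.evalEval x y

/-- No prime divides `∏ f_k(x, n - x)` for every `x`. -/
def NoFixed {m : ℕ} (f : Fin m → ℤ[X][Y]) (n : ℕ) : Prop :=
  ∀ p : ℕ, p.Prime → ∃ x : ℤ, ¬ (p : ℤ) ∣ ∏ k, (f k).evalEval x ((n : ℤ) - x)

open Classical in
/-- The number of the integers `1 ≤ x ≤ T` for which there is a positive integer `y` with `x + y = n` such that all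
the `|f_k(x, y)|` are `≥ 2`, their product has at most `R` prime factors, counted with multiplicity, all of them
`≥ v`, and all the prime factors of `f_k(x, y)` are `≥ w` if `f_k` has no nonconstant factor in `x` alone. -/
noncomputable def smallX {m : ℕ} (f : Fin m → ℤ[X][Y]) (n R T : ℕ) (v w : ℝ) : ℕ :=
  ((Icc 1 T).filter (fun x : ℕ => ∃ y : ℕ, 1 ≤ y ∧ x + y = n ∧
    (∀ k, 2 ≤ ((f k).evalEval (x : ℤ) (y : ℤ)).natAbs) ∧
    (∏ k, (f k).evalEval (x : ℤ) (y : ℤ)).natAbs.primeFactorsList.length ≤ R ∧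
    (∀ p : ℕ, p.Prime → (p : ℤ) ∣ ∏ k, (f k).evalEval (x : ℤ) (y : ℤ) → v ≤ (p : ℝ)) ∧
    ∀ k, ¬ XFactor (f k) → ∀ p : ℕ, p.Prime → (p : ℤ) ∣ (f k).evalEval (x : ℤ) (y : ℤ) → w ≤ (p : ℝ))).card

/-- the comparison of the counts -/
lemma cnt_le {m : ℕ} {f : Fin m → ℤ[X][Y]} {a : Fin m → ℤ[X]} {h : Fin m → ℤ[X][Y]} (H : Dec f a h)
    (D g e j1 T n V SA SP : ℕ) (δ0 δ : ℝ) (he : 1 ≤ e) (hδ0 : 0 < δ0) (hδp : 0 < δ) (hδ : δ ≤ δ0)
    (hδe : δ ≤ 1 / e) (hbig : ∀ k, ∀ j : ℕ, j1 < j → j ≤ T → 2 ≤ ((f k).evalEval (j : ℤ) ((n : ℤ) - j)).natAbs)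
    (hSA : ∀ j : ℕ, j ≤ T → ((∏ k, a k).eval (j : ℤ)).natAbs ≤ SA * T ^ g)
    (hSP : ∀ j : ℕ, j ≤ T → (((∏ k, h k).comp (X + C (-X))).evalEval (j : ℤ) (n : ℤ)).natAbs ≤
      SP * T ^ (g + D) * n ^ D)
    (hT2 : 2 ≤ T) (hTA : SA ≤ T) (hTV : SP * T ^ (g + D) ≤ V) (hTV2 : T ≤ V)
    (hn : T < n) (hnV : n ≤ V) (hfix : NoFixed f n) :
    cntP (Fm ((∏ k, h k).comp (X + C (-X)))) (Gm (∏ k, a k) j1 e) T n ((V : ℝ) ^ δ0) ≤
      smallX f n (e * (g + 1) + ⌈((D : ℝ) + 1) / δ0⌉₊) T ((T : ℝ) ^ δ) ((V : ℝ) ^ δ) := by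
  classical
  obtain ⟨A, hA⟩ : ∃ A, A = ∏ k, a k := ⟨_, rfl⟩
  obtain ⟨P, hP⟩ : ∃ P, P = (∏ k, h k).comp (X + C (-X)) := ⟨_, rfl⟩
  have he0 : (0 : ℝ) < e := by exact_mod_cast he
  have hT0 : (0 : ℝ) < T := by exact_mod_cast (by omega : 0 < T)
  have hT1 : (1 : ℝ) < T := by exact_mod_cast (by omega : 1 < T)
  have hV1 : (1 : ℝ) < V := by exact_mod_cast (by omega : 1 < V)
  have hTVr : (T : ℝ) ≤ V := by exact_mod_cast hTV2
  simp only [← hA] at hSA
  simp only [← hP] at hSP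
  rw [← hA, ← hP]
  unfold cntP smallX
  apply card_le_card
  intro j hj
  rw [mem_filter] at hj ⊢
  obtain ⟨h1, ⟨hG1, hG2⟩, h2, h3⟩ := hj
  have hj2 := mem_Icc.1 h1
  obtain ⟨y, hy⟩ : ∃ y : ℕ, n = j + y := ⟨n - j, by omega⟩
  have e1 : ((n : ℕ) : ℤ) - (j : ℤ) = (y : ℤ) := by rw [hy]; push_cast; ring
  have hval := H.val (j : ℤ) (n : ℤ)
  rw [e1, ← hA, ← hP] at hval
  have hPv : FP (Fm P) j n = (P.evalEval (j : ℤ) (n : ℤ)).natAbs := FP_Fm P j n
  rw [hPv] at h2 h3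
  have hf2 : ∀ k, 2 ≤ ((f k).evalEval (j : ℤ) (y : ℤ)).natAbs := by
    intro k
    have := hbig k j hG1 hj2.2
    rw [e1] at this
    exact this
  have hprod0 : ∏ k, (f k).evalEval (j : ℤ) (y : ℤ) ≠ 0 := by
    apply prod_ne_zero_iff.2
    intro k _ h0
    have := hf2 k
    rw [h0] at this
    simp at this
  have hAj : A.eval (j : ℤ) ≠ 0 := by
    intro h0
    apply hprod0
    rw [hval, h0, zero_mul]
  have hPj : P.evalEval (j : ℤ) (n : ℤ) ≠ 0 := by
    intro h0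
    apply hprod0
    rw [hval, h0, mul_zero]
  have hpA : ∀ p : ℕ, p.Prime → (p : ℤ) ∣ A.eval (j : ℤ) → (T : ℝ) ^ (1 / (e : ℝ)) ≤ (p : ℝ) := by
    intro p hp hd
    have h4 : T < p ^ e := by
      by_contra hcon
      exact hG2 p hp (by omega) hd
    have h5 : (T : ℝ) ≤ (p : ℝ) ^ e := by exact_mod_cast h4.le
    have h6 : (T : ℝ) ^ (1 / (e : ℝ)) ≤ ((p : ℝ) ^ e) ^ (1 / (e : ℝ)) :=
      Real.rpow_le_rpow hT0.le h5 (by positivity)
    rw [← Real.rpow_natCast (p : ℝ) e, ← Real.rpow_mul (Nat.cast_nonneg _), mul_one_div_cancel he0.ne',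
      Real.rpow_one] at h6
    exact h6
  have hpP : ∀ p : ℕ, p.Prime → (p : ℤ) ∣ P.evalEval (j : ℤ) (n : ℤ) → (V : ℝ) ^ δ0 ≤ (p : ℝ) :=
    fun p hp hd => h3 p hp (Int.natCast_dvd.1 hd)
  refine ⟨h1, y, by omega, hy.symm, hf2, ?_, ?_, ?_⟩
  · rw [hval, Int.natAbs_mul]
    have h4 := (Nat.perm_primeFactorsList_mul (Int.natAbs_ne_zero.2 hAj) (Int.natAbs_ne_zero.2 hPj)).length_eq
    rw [h4, List.length_append]
    apply Nat.add_le_add
    · have h5 := len_le (A.eval (j : ℤ)).natAbs (Int.natAbs_ne_zero.2 hAj) T (1 / (e : ℝ)) (g + 1) hT1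
        (by positivity) (by
        have b1 : (A.eval (j : ℤ)).natAbs ≤ T ^ (g + 1) := by
          refine (hSA j hj2.2).trans ?_
          rw [pow_succ, mul_comm]
          exact Nat.mul_le_mul_left _ hTA
        have b2 : (((A.eval (j : ℤ)).natAbs : ℕ) : ℝ) ≤ ((T ^ (g + 1) : ℕ) : ℝ) := by exact_mod_cast b1
        refine b2.trans (le_of_eq ?_)
        rw [Nat.cast_pow, ← Real.rpow_natCast]
        congr 1
        push_cast
        ring) (fun p hp hd => hpA p hp (Int.natCast_dvd.2 hd))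
      have h6 : ((g : ℝ) + 1) / (1 / (e : ℝ)) = ((e * (g + 1) : ℕ) : ℝ) := by
        push_cast
        field_simp
      rw [h6] at h5
      exact_mod_cast h5
    · have h5 := len_le (P.evalEval (j : ℤ) (n : ℤ)).natAbs (Int.natAbs_ne_zero.2 hPj) V δ0 ((D : ℝ) + 1) hV1
        hδ0 (by
        have b1 : (P.evalEval (j : ℤ) (n : ℤ)).natAbs ≤ V ^ (D + 1) := by
          refine (hSP j hj2.2).trans ?_
          rw [pow_succ, mul_comm]
          exact Nat.mul_le_mul (Nat.pow_le_pow_left hnV D) hTV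
        have b2 : (((P.evalEval (j : ℤ) (n : ℤ)).natAbs : ℕ) : ℝ) ≤ ((V ^ (D + 1) : ℕ) : ℝ) := by exact_mod_cast b1
        refine b2.trans (le_of_eq ?_)
        rw [Nat.cast_pow, ← Real.rpow_natCast]
        congr 1
        push_cast
        ring) (fun p hp hd => h3 p hp hd)
      have h6 := h5.trans (Nat.le_ceil (((D : ℝ) + 1) / δ0))
      exact_mod_cast h6
  · intro p hp hd
    rw [hval] at hd
    rcases (Nat.prime_iff_prime_int.1 hp).dvd_or_dvd hd with h4 | h4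
    · refine le_trans ?_ (hpA p hp h4)
      exact Real.rpow_le_rpow_of_exponent_le hT1.le hδe
    · refine le_trans ?_ (hpP p hp h4)
      calc (T : ℝ) ^ δ ≤ (V : ℝ) ^ δ := Real.rpow_le_rpow hT0.le hTVr hδp.le
        _ ≤ (V : ℝ) ^ δ0 := Real.rpow_le_rpow_of_exponent_le hV1.le hδ
  · intro k hk p hp hd
    have hak : (a k).natDegree = 0 := by
      by_contra hcon
      apply hk
      refine ⟨a k, h k, by omega, fun x y => ?_⟩
      rw [H.eq k, evalEval_mul, evalEval_C]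
    have hac := eq_C_of_natDegree_eq_zero hak
    rw [H.eq k, evalEval_mul, evalEval_C] at hd
    rcases (Nat.prime_iff_prime_int.1 hp).dvd_or_dvd hd with h4 | h4
    · exfalso
      obtain ⟨x, hx⟩ := hfix p hp
      apply hx
      rw [hac, eval_C] at h4
      refine dvd_trans ?_ (dvd_prod_of_mem _ (mem_univ k))
      rw [H.eq k, evalEval_mul, evalEval_C, hac, eval_C]
      exact h4.mul_right _
    · have h5 : (p : ℤ) ∣ P.evalEval (j : ℤ) (n : ℤ) := by
        rw [hP, comp_val, eval_neg, eval_X, ← sub_eq_add_neg, e1, evalEval_prod]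
        exact h4.trans (dvd_prod_of_mem (fun i => (h i).evalEval (j : ℤ) (y : ℤ)) (mem_univ k))
      refine le_trans ?_ (hpP p hp h5)
      exact Real.rpow_le_rpow_of_exponent_le hV1.le hδ

set_option maxHeartbeats 4000000 in
open Classical in
theorem result (D g : ℕ) (hD : 1 ≤ D) (θ : ℝ) (hθ : 0 < θ) (hθ1 : θ ≤ 1) :
    ∃ (R : ℕ) (δ : ℝ), 0 < δ ∧ ∀ (m : ℕ) (f : Fin m → ℤ[X][Y]),
      (∀ k, ∀ c : ℤ, f k ≠ C (C c)) → (∀ k, ¬ SumFactor (f k)) → ∑ k, (f k).natDegree = D →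
      (∀ i, ((∏ k, f k).coeff i).natDegree ≤ g) →
      ∀ (κ ε : ℝ) (B : ℕ), 0 < κ → 0 < ε → ∃ N₀ : ℕ, ∀ N : ℕ, N₀ ≤ N → ∀ Z L T : ℕ,
        (N : ℝ) ^ θ ≤ L → Z + L ≤ N → Real.log N ^ ((D : ℝ) + κ) ≤ T → (T : ℝ) ≤ Real.log N ^ B →
        (((Ioc Z (Z + L)).filter (fun n : ℕ => NoFixed f n ∧
          (smallX f n R T ((T : ℝ) ^ δ) ((N : ℝ) ^ δ) : ℝ) * Real.log N ^ ((D : ℝ) + κ) < T)).card : ℝ) ≤
            ε * L := by
  obtain ⟨e, δ0, he, hδ0, HM⟩ := mainBV D g hD θ hθ hθ1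
  have he0 : (0 : ℝ) < e := by exact_mod_cast he
  refine ⟨e * (g + 1) + ⌈((D : ℝ) + 1) / δ0⌉₊, min δ0 (1 / e), lt_min hδ0 (by positivity), ?_⟩
  intro m f hc hs hDs hg κ ε B hκ hε
  have hs' : ∀ k, ¬ FactorSum (f k) := hs
  have hf : ∀ k, f k ≠ 0 := fun k => ne_zero_of (hs' k)
  obtain ⟨a, h, H⟩ := exists_dec f hf
  obtain ⟨hbv, hPD, hXP, hAg⟩ := H.bv hs' D g hD hDs hg
  obtain ⟨j0, HJ⟩ := HM _ _ hbv hPD hXP hAg
  choose J E hJE using fun k => big2 (f k) (hc k)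
  obtain ⟨j1, hj1⟩ : ∃ j1, j1 = j0 + ∑ k, J k := ⟨_, rfl⟩
  obtain ⟨E1, hE1⟩ : ∃ E1, E1 = ∑ k, E k := ⟨_, rfl⟩
  obtain ⟨SA, hSA⟩ := size_g (∏ k, a k) g hAg
  obtain ⟨SP, hSP⟩ := size_gD _ (g + D) hXP
  rw [hPD] at hSP
  have hmain := HJ j1 (by omega) (ε / 2) κ B hκ (half_pos hε)
  have tl : Filter.Tendsto (fun N : ℕ => Real.log (N : ℝ)) Filter.atTop Filter.atTop :=
    Real.tendsto_log_atTop.comp tendsto_natCast_atTop_atTop
  have e2 := Pool.Agent.TH464.PW.logpow_rpow (B * (E1 + 1)) (2 ^ (E1 + 1) * (2 / ε)) θ (by positivity) hθ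
  have e3 := tl.eventually_ge_atTop ((SA : ℝ) + 2)
  have e4 := Pool.Agent.TH464.PW.logpow_rpow (B * (g + D)) ((SP + 1) * 2 ^ (g + D)) 1 (by positivity) one_pos
  have e5 := Pool.Agent.TH464.PW.logpow_rpow B 1 1 one_pos one_pos
  obtain ⟨N₀, hN₀⟩ := Filter.eventually_atTop.1 (hmain.and (e2.and (e3.and (e4.and e5))))
  refine ⟨N₀, ?_⟩
  intro N hN Z L T hL hZL hT1 hT2
  obtain ⟨b1, b2, b3, b4, b5⟩ := hN₀ N hN
  have b1 := b1 Z L T hL hZL hT1 hT2
  have hSA0 : (0 : ℝ) ≤ SA := Nat.cast_nonneg _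
  have hSP0 : (0 : ℝ) ≤ SP := Nat.cast_nonneg _
  have hlN : 1 ≤ Real.log N := by linarith
  have hTlog : Real.log N ≤ T := by
    refine le_trans ?_ hT1
    have hD1 : (1 : ℝ) ≤ D := by exact_mod_cast hD
    calc Real.log N = Real.log N ^ (1 : ℝ) := (Real.rpow_one _).symm
      _ ≤ _ := Real.rpow_le_rpow_of_exponent_le hlN (by linarith)
  have hTA2 : SA + 2 ≤ T := by
    have : (SA : ℝ) + 2 ≤ T := by linarith
    exact_mod_cast this
  have hTN : T ≤ N := by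
    rw [one_mul, Real.rpow_one] at b5
    exact_mod_cast hT2.trans b5
  have hKp := Pool.Agent.L0h41.QN.K_pow T B (g + D) (Real.log N) hlN hT2
  have hTV : SP * T ^ (g + D) ≤ N := by
    rw [Real.rpow_one] at b4
    have c1 : (((T + 1) ^ (g + D) : ℕ) : ℝ) ≤ 2 ^ (g + D) * Real.log N ^ (B * (g + D)) := hKp
    have c2 : ((T ^ (g + D) : ℕ) : ℝ) ≤ (((T + 1) ^ (g + D) : ℕ) : ℝ) := by
      exact_mod_cast Nat.pow_le_pow_left (by omega : T ≤ T + 1) (g + D)
    have c3 : ((SP * T ^ (g + D) : ℕ) : ℝ) ≤ N := by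
      rw [Nat.cast_mul]
      calc (SP : ℝ) * ((T ^ (g + D) : ℕ) : ℝ) ≤ (SP + 1) * (2 ^ (g + D) * Real.log N ^ (B * (g + D))) := by
            apply mul_le_mul (by linarith) (c2.trans c1) (Nat.cast_nonneg _) (by linarith)
        _ = (SP + 1) * 2 ^ (g + D) * Real.log N ^ (B * (g + D)) := by ring
        _ ≤ N := b4
    exact_mod_cast c3
  obtain ⟨n1, hn1⟩ : ∃ n1, n1 = (T + 1) ^ (E1 + 1) := ⟨_, rfl⟩
  have hn1L : (n1 : ℝ) ≤ ε / 2 * L := by
    have c1 := Pool.Agent.L0h41.QN.K_pow T B (E1 + 1) (Real.log N) hlN hT2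
    rw [← hn1] at c1
    refine c1.trans ?_
    have c2 := b2.trans hL
    have c3 := mul_le_mul_of_nonneg_left c2 (half_pos hε).le
    refine le_trans (le_of_eq ?_) c3
    field_simp
  obtain ⟨F1, hF1⟩ : ∃ F1, F1 = ((Ioc Z (Z + L)).filter (fun n =>
      AdmP ((∏ k, h k).comp (X + C (-X))) (∏ k, a k) n ∧
        (cntP (Fm ((∏ k, h k).comp (X + C (-X)))) (Gm (∏ k, a k) j1 e) T n ((N : ℝ) ^ δ0) : ℝ) *
          Real.log N ^ ((D : ℝ) + κ) < T)) := ⟨_, rfl⟩
  rw [← hF1] at b1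
  have hlp : 0 ≤ Real.log N ^ ((D : ℝ) + κ) := Real.rpow_nonneg (Real.log_natCast_nonneg N) _
  have hsub : (Ioc Z (Z + L)).filter (fun n : ℕ => NoFixed f n ∧
        (smallX f n (e * (g + 1) + ⌈((D : ℝ) + 1) / δ0⌉₊) T ((T : ℝ) ^ (min δ0 (1 / (e : ℝ))))
          ((N : ℝ) ^ (min δ0 (1 / (e : ℝ)))) : ℝ) * Real.log N ^ ((D : ℝ) + κ) < T) ⊆ F1 ∪ Ioc 0 n1 := by
    intro n hn
    rw [mem_filter] at hn
    obtain ⟨a1, a2, a3⟩ := hn
    have a1' := mem_Ioc.1 a1
    rw [mem_union]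
    rcases Nat.lt_or_ge n1 n with h1 | h1
    · left
      rw [hF1, mem_filter]
      refine ⟨a1, H.adm n a2, ?_⟩
      have hTn : T < n := by
        have c1 : T + 1 ≤ n1 := by
          rw [hn1]
          exact Nat.le_self_pow (by omega) _
        omega
      have a4 := cnt_le H D g e j1 T n N SA SP δ0 (min δ0 (1 / (e : ℝ))) he hδ0 (lt_min hδ0 (by positivity))
        (min_le_left _ _) (min_le_right _ _) (by
          intro k j hj hjT
          apply hJE k T j n _ hjT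
          · refine le_trans ?_ h1.le
            rw [hn1]
            apply Nat.pow_le_pow_right (by omega)
            have : E k ≤ ∑ k, E k := single_le_sum (f := E) (fun _ _ => Nat.zero_le _) (mem_univ k)
            omega
          · have : J k ≤ ∑ k, J k := single_le_sum (f := J) (fun _ _ => Nat.zero_le _) (mem_univ k)
            omega)
        (fun j hj => hSA T j (by omega) hj) (fun j hj => hSP T j n (by omega) hj (by omega))
        (by omega) (by omega) hTV hTN hTn (by omega) a2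
      have a5 : (cntP (Fm ((∏ k, h k).comp (X + C (-X)))) (Gm (∏ k, a k) j1 e) T n ((N : ℝ) ^ δ0) : ℝ) ≤
          smallX f n (e * (g + 1) + ⌈((D : ℝ) + 1) / δ0⌉₊) T ((T : ℝ) ^ (min δ0 (1 / (e : ℝ))))
            ((N : ℝ) ^ (min δ0 (1 / (e : ℝ)))) := by exact_mod_cast a4
      exact lt_of_le_of_lt (mul_le_mul_of_nonneg_right a5 hlp) a3
    · right
      rw [mem_Ioc]
      omega
  have h6 : ((F1 ∪ Ioc 0 n1).card : ℝ) ≤ F1.card + n1 := by
    have := card_union_le F1 (Ioc 0 n1)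
    rw [Nat.card_Ioc, Nat.sub_zero] at this
    exact_mod_cast this
  have h7 : (((Ioc Z (Z + L)).filter (fun n : ℕ => NoFixed f n ∧
        (smallX f n (e * (g + 1) + ⌈((D : ℝ) + 1) / δ0⌉₊) T ((T : ℝ) ^ (min δ0 (1 / (e : ℝ))))
          ((N : ℝ) ^ (min δ0 (1 / (e : ℝ)))) : ℝ) * Real.log N ^ ((D : ℝ) + κ) < T)).card : ℝ) ≤
      (F1 ∪ Ioc 0 n1).card := by exact_mod_cast card_le_card hsub
  linarith

end Pool.Agent.Results.MP_0da313_nt.AllFamilies
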