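import Mathlib
import Pool.Agent.L0h42.CL.Top
import Pool.Agent.L0h42.CL.K4
import Pool.Agent.L0h89.CL.LOW

/-!
# Clusters of representations `n = x + y` with `|f(x, y)|` prime

Let `f(x, y) = c y + a x² + b x + d` with `a c > 0`.

(1) For every `m` there is `R`, depending only on `m`, such that for all these `f` and all `A`, `B` there is `E` with: for
all large `N`, for all but at most `N / (log N)^A` of the `n ≤ N` for which no prime divides all the values `f(x, n - x)`,
EVERY interval of length at least `√N / (log N)^B` below `√N (log N)^B` contains at least `√N / (log N)^E` integers `x` for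
which at least `m` of the `R` representations `n = x_j + y_j`, `x_j = x + j`, `1 ≤ j ≤ R`, have `|f(x_j, y_j)|` prime.

(2) For every `m` there is `k` such that for all distinct integers `h_1, ..., h_k ≥ 0`, all these `f` and all `A`, `B`
there is `E` with: for all large `N`, for all but at most `N / (log N)^A` of the `n ≤ N` for which no prime divides all
the values of the product of the `f(x + h_i, n - x - h_i)`, every such interval contains at least `√N / (log N)^E` integers
`x` for which at least `m` of the `k` numbers `|f(x + h_i, n - x - h_i)|` are prime.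

Proof: `Pool/Agent/L0h42/CL` (the method of Maynard and Tao along the values of a quadratic polynomial, for almost all
constant terms), with the constant terms `c n + d`.
-/

set_option autoImplicit false

namespace Pool.Agent.Results.MP_0da313_nt.ClustersOfRepresentations

open Finset

/-- The polynomial `f(x, y) = c y + a x² + b x + d`. -/
def f (c a b d x y : ℤ) : ℤ := c * y + (a * x ^ 2 + b * x + d)

/-- `x, y` are positive integers, `x + y = n` and `|f(x, y)|` is prime. -/
def IsRep (c a b d : ℤ) (n x y : ℕ) : Prop := 1 ≤ x ∧ 1 ≤ y ∧ x + y = n ∧ (f c a b d x y).natAbs.Prime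

open Classical in
/-- The number of the `1 ≤ j ≤ R` for which there is a representation `n = (x + j) + y`. -/
noncomputable def repsAfter (c a b d : ℤ) (n R x : ℕ) : ℕ := ((Icc 1 R).filter (fun j : ℕ => ∃ y : ℕ, IsRep c a b d n (x + j) y)).card

open Classical in
/-- The number of the `i` for which there is a representation `n = (x + h_i) + y`. -/
noncomputable def repsAmong {k : ℕ} (c a b d : ℤ) (h : Fin k → ℕ) (n x : ℕ) : ℕ :=
  (univ.filter (fun i => ∃ y : ℕ, IsRep c a b d n (x + h i) y)).card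

open Classical in
/-- Every interval `(T, T + M]` with `M ≥ √N / (log N)^B` and `T + M ≤ √N (log N)^B` contains at least `√N / (log N)^E`
integers with the property `P`. -/
def InEveryInterval (N B E : ℕ) (P : ℕ → Prop) : Prop :=
  ∀ T M : ℕ, √(N : ℝ) / Real.log N ^ B ≤ M → (T : ℝ) + M ≤ √(N : ℝ) * Real.log N ^ B →
    √(N : ℝ) / Real.log N ^ E ≤ (((Ioc T (T + M)).filter P).card : ℝ)

/-- No prime divides all the values `f(x, n - x)`. -/
def NoFixed₁ (c a b d : ℤ) (n : ℕ) : Prop := ∀ p : ℕ, p.Prime → ∃ x : ℤ, ¬ (p : ℤ) ∣ f c a b d x (n - x)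

/-- No prime divides all the values of the product of the `f(x + h_i, n - (x + h_i))`. -/
def NoFixed₂ {k : ℕ} (c a b d : ℤ) (h : Fin k → ℕ) (n : ℕ) : Prop :=
  ∀ p : ℕ, p.Prime → ∃ x : ℤ, ¬ (p : ℤ) ∣ ∏ i, f c a b d (x + h i) (n - (x + h i))

open Classical in
/-- The number of the exceptions `n ≤ N` in (1). -/
noncomputable def exceptions₁ (c a b d : ℤ) (m R B E N : ℕ) : ℕ :=
  ((Icc 1 N).filter (fun n : ℕ => NoFixed₁ c a b d n ∧ ¬ InEveryInterval N B E (fun x => m ≤ repsAfter c a b d n R x))).card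

open Classical in
/-- The number of the exceptions `n ≤ N` in (2). -/
noncomputable def exceptions₂ {k : ℕ} (c a b d : ℤ) (h : Fin k → ℕ) (m B E N : ℕ) : ℕ :=
  ((Icc 1 N).filter (fun n : ℕ => NoFixed₂ c a b d h n ∧ ¬ InEveryInterval N B E (fun x => m ≤ repsAmong c a b d h n x))).card

open Pool.Agent.L0h42.CL

lemma val_eq (s c a b d : ℤ) (c' : ℕ) (hc' : (c' : ℤ) = s * c) (n x : ℤ) :
    (c' : ℤ) * n + s * d + gz (s * a) (s * b - c') x = s * f c a b d x (n - x) := by
  unfold f gz
  rw [hc']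
  ring

lemma nat_prime {s z : ℤ} (hs : s = 1 ∨ s = -1) (h : (s * z).toNat.Prime) : z.natAbs.Prime := by
  have h1 := h.pos
  have h2 : 0 < s * z := by omega
  have h3 : (s * z).toNat = z.natAbs := by
    rcases hs with h | h
    · rw [h, one_mul] at h2 ⊢; omega
    · rw [h] at h2 ⊢; omega
  rwa [h3] at h

lemma dvd_sign {s z : ℤ} (hs : s = 1 ∨ s = -1) {p : ℤ} (h : p ∣ s * z) : p ∣ z := by
  rcases hs with h1 | h1
  · rwa [h1, one_mul] at h
  · rw [h1, neg_one_mul] at h
    exact (dvd_neg).1 h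

/-- the sign -/
lemma sign_ac {a c : ℤ} (h : 0 < a * c) : ∃ (s : ℤ) (c' : ℕ), (s = 1 ∨ s = -1) ∧ 1 ≤ c' ∧ (c' : ℤ) = s * c ∧ 1 ≤ s * a := by
  rcases lt_trichotomy c 0 with hc | hc | hc
  · have ha : a < 0 := by
      by_contra hcon
      push Not at hcon
      have := mul_nonpos_of_nonneg_of_nonpos hcon hc.le
      omega
    exact ⟨-1, c.natAbs, Or.inr rfl, by omega, by omega, by omega⟩
  · rw [hc, mul_zero] at h
    exact absurd h (lt_irrefl _)
  · have ha : 0 < a := by
      by_contra hcon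
      push Not at hcon
      have := mul_nonpos_of_nonpos_of_nonneg hcon hc.le
      omega
    exact ⟨1, c.natAbs, Or.inl rfl, by omega, by omega, by omega⟩

open Classical in
/-- a tuple of multiples of all the small primes has no fixed prime divisor -/
lemma tuple_free {k : ℕ} (a b v : ℤ) (h : Fin k → ℕ) (hh : ∀ l, ∀ p : ℕ, p.Prime → p ≤ 2 * k → p ∣ h l)
    (hnf : ∀ p : ℕ, p.Prime → ∃ t : ℤ, ¬ (p : ℤ) ∣ v + gz a b t) (p : ℕ) (hp : p.Prime) :
    ∃ t : ℤ, ∀ l, ¬ (p : ℤ) ∣ v + gz a b (t + h l) := by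
  obtain ⟨C, hC⟩ : ∃ C : ℕ, C = (v + p * |v|).toNat := ⟨_, rfl⟩
  have hCz : (C : ℤ) = v + p * |v| := by
    rw [hC]
    apply Int.toNat_of_nonneg
    have h1 : -|v| ≤ v := neg_abs_le v
    have h2 : |v| ≤ p * |v| := le_mul_of_one_le_left (abs_nonneg _) (by exact_mod_cast hp.one_lt.le)
    linarith
  have hdv : ∀ w : ℤ, (p : ℤ) ∣ C + w ↔ (p : ℤ) ∣ v + w := by
    intro w
    rw [hCz, show v + p * |v| + w = (v + w) + p * |v| by ring]
    exact dvd_add_left (dvd_mul_right _ _)
  have h1 := Pool.Agent.L0h89.CL.nuq_lt a b h p C hp (fun l hk => hh l p hp hk) (by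
    obtain ⟨t, ht⟩ := hnf p hp
    exact ⟨t, fun hd => ht ((hdv _).1 hd)⟩)
  by_contra hcon
  push Not at hcon
  have h2 : nuq a b h p C = p := by
    unfold nuq
    rw [filter_true_of_mem, card_range]
    intro τ _
    obtain ⟨l, hl⟩ := hcon τ
    refine ⟨l, ?_⟩
    unfold cq
    rw [sub_neg_eq_add]
    exact (hdv _).2 hl
  omega

/-- the step from the two forms of the condition on the intervals -/
lemma evy_of (X B E : ℕ) (hX : 0 < Real.log X) (P Q : ℕ → Prop) [DecidablePred P] (hPQ : ∀ t, 1 ≤ t → P t → Q t)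
    (h : Evy X B E P) : InEveryInterval X B E Q := by
  intro T M h1 h2
  have hp : 0 < Real.log X ^ B := pow_pos hX B
  refine le_trans (h T M ((div_le_iff₀ hp).1 h1) h2) ?_
  rw [Nat.cast_le]
  refine card_le_card ?_
  intro t ht
  have h3 := mem_filter.1 ht
  classical
  exact mem_filter.2 ⟨h3.1, hPQ t (by have := mem_Ioc.1 h3.1; omega) h3.2⟩

/-- a value of the system is a representation -/
lemma rep_of (s c a b d : ℤ) (c' : ℕ) (hs : s = 1 ∨ s = -1) (hc' : (c' : ℤ) = s * c) (n x : ℕ) (hx : 1 ≤ x) (hxn : x < n)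
    (hp : ((c' : ℤ) * n + s * d + gz (s * a) (s * b - c') x).toNat.Prime) : ∃ y : ℕ, IsRep c a b d n x y := by
  refine ⟨n - x, hx, by omega, by omega, ?_⟩
  have e1 : ((n - x : ℕ) : ℤ) = (n : ℤ) - x := by push_cast [hxn.le]; ring
  rw [e1]
  rw [val_eq s c a b d c' hc' n x] at hp
  exact nat_prime hs hp

open Classical in
/-- **Main theorem.** -/
theorem result :
    (∀ m : ℕ, 1 ≤ m → ∃ R : ℕ, ∀ c a b d : ℤ, 0 < a * c → ∀ A B : ℕ, ∃ E N₀ : ℕ, ∀ N : ℕ, N₀ ≤ N →
      (exceptions₁ c a b d m R B E N : ℝ) ≤ N / Real.log N ^ A) ∧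
    (∀ m : ℕ, 1 ≤ m → ∃ k : ℕ, ∀ h : Fin k → ℕ, Function.Injective h → ∀ c a b d : ℤ, 0 < a * c → ∀ A B : ℕ,
      ∃ E N₀ : ℕ, ∀ N : ℕ, N₀ ≤ N → (exceptions₂ c a b d h m B E N : ℝ) ≤ N / Real.log N ^ A) := by
  constructor
  · intro m hm
    obtain ⟨k, hk, hall⟩ := prog_intervals core_all m hm
    obtain ⟨P, hP⟩ : ∃ P, P = (2 * k).factorial := ⟨_, rfl⟩
    have hP0 : 0 < P := by rw [hP]; exact Nat.factorial_pos _
    obtain ⟨h, hh⟩ : ∃ h : Fin k → ℕ, h = fun l : Fin k => P * ((l : ℕ) + 1) := ⟨_, rfl⟩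
    have hinj : Function.Injective h := by
      intro x y hxy
      rw [hh] at hxy
      have := Nat.eq_of_mul_eq_mul_left hP0 hxy
      exact Fin.ext (by omega)
    have hdvd : ∀ l, ∀ p : ℕ, p.Prime → p ≤ 2 * k → p ∣ h l := by
      intro l p hp hpk
      rw [hh]
      exact Dvd.dvd.mul_right (by rw [hP]; exact Nat.dvd_factorial hp.pos hpk) _
    have h1 : ∀ l, 1 ≤ h l := by
      intro l
      rw [hh]
      exact Nat.mul_pos hP0 (Nat.succ_pos _)
    refine ⟨P * k, fun c a b d hac A B => ?_⟩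
    obtain ⟨s, c', hs, hc1, hc', ha1⟩ := sign_ac hac
    obtain ⟨E, X0, hE⟩ := hall h hinj c' (s * a) (s * b - c') (s * d) hc1 ha1 A B
    refine ⟨E, max X0 3, fun N hN => ?_⟩
    have hX0 : X0 ≤ N := le_trans (le_max_left _ _) hN
    have hX3 : 3 ≤ N := le_trans (le_max_right _ _) hN
    have hlog : 0 < Real.log N := Real.log_pos (by exact_mod_cast (show 1 < N by omega))
    refine le_trans ?_ (hE N hX0)
    unfold exceptions₁ BadN
    rw [Nat.cast_le]
    apply card_le_card
    intro n hn
    rw [mem_filter] at hn ⊢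
    refine ⟨hn.1, ?_, fun hev => hn.2.2 ?_⟩
    · apply tuple_free (s * a) (s * b - c') ((c' : ℤ) * n + s * d) h hdvd
      intro p hp
      obtain ⟨t, ht⟩ := hn.2.1 p hp
      refine ⟨t, fun hd => ht ?_⟩
      rw [val_eq s c a b d c' hc' n t] at hd
      exact dvd_sign hs hd
    · apply evy_of N B E hlog _ _ _ hev
      intro x _ hx
      refine hx.trans ?_
      unfold npn repsAfter
      apply card_le_card_of_injOn h
      · intro l hl
        rw [mem_coe, mem_filter] at hl
        rw [mem_coe, mem_filter, mem_Icc]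
        refine ⟨⟨h1 l, ?_⟩, ?_⟩
        · rw [hh]
          exact Nat.mul_le_mul_left P (by have := l.2; omega)
        · apply rep_of s c a b d c' hs hc' n (x + h l) (by have := h1 l; omega) hl.2.1
          have := hl.2.2
          push_cast
          exact this
      · exact hinj.injOn
  · intro m hm
    obtain ⟨k, hk, hall⟩ := prog_intervals core_all m hm
    refine ⟨k, fun h hinj c a b d hac A B => ?_⟩
    obtain ⟨s, c', hs, hc1, hc', ha1⟩ := sign_ac hac
    obtain ⟨E, X0, hE⟩ := hall h hinj c' (s * a) (s * b - c') (s * d) hc1 ha1 A B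
    refine ⟨E, max X0 3, fun N hN => ?_⟩
    have hX0 : X0 ≤ N := le_trans (le_max_left _ _) hN
    have hX3 : 3 ≤ N := le_trans (le_max_right _ _) hN
    have hlog : 0 < Real.log N := Real.log_pos (by exact_mod_cast (show 1 < N by omega))
    refine le_trans ?_ (hE N hX0)
    unfold exceptions₂ BadN
    rw [Nat.cast_le]
    apply card_le_card
    intro n hn
    rw [mem_filter] at hn ⊢
    refine ⟨hn.1, ?_, fun hev => hn.2.2 ?_⟩
    · intro p hp
      obtain ⟨t, ht⟩ := hn.2.1 p hp
      refine ⟨t, fun l hd => ht ?_⟩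
      rw [val_eq s c a b d c' hc' n (t + h l)] at hd
      exact dvd_trans (dvd_sign hs hd) (dvd_prod_of_mem (fun i => f c a b d (t + h i) (n - (t + h i))) (mem_univ l))
    · apply evy_of N B E hlog _ _ _ hev
      intro x hx0 hx
      refine hx.trans ?_
      unfold npn repsAmong
      apply card_le_card
      intro l hl
      rw [mem_filter] at hl ⊢
      refine ⟨mem_univ _, ?_⟩
      apply rep_of s c a b d c' hs hc' n (x + h l) (by omega) hl.2.1
      have := hl.2.2
      push_cast
      exact this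

end Pool.Agent.Results.MP_0da313_nt.ClustersOfRepresentations
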