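import Mathlib
import Pool.Agent.L0h42.PP.P10

/-!
# Arbitrarily many members of a family simultaneously PRIME, for almost all `n = x + y`

Let `c ≠ 0` be an integer, `h ∈ ℤ[x]`, and consider the polynomials `x + a_i` and `c y + h(x) + b_i`, `1 ≤ i ≤ k`, with
distinct integers `a_i` and distinct integers `b_i`, where `h(x) - c x` has the degree `e ≥ 1` (if it is constant,
`c y + h(x)` is a polynomial in `x + y`).

(1) For all `m`, `e` there is `k` such that for every such family of `2 k` polynomials and almost all `n` for which no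
prime divides all the values of the product of the polynomials at the pairs `(x, n - x)`: there are `m` indices `i` such
that the absolute values of the `2 m` polynomials `x + a_i`, `c y + h(x) + b_i` are simultaneously prime for at least
`n^(1/e) / (log n)^E` pairs `x, y ≥ 1`, `x + y = n`, with `x ≤ (n / Q)^(1/e)`.

(2) The same for the families of the `k` polynomials `c y + h(x) + b_i` (with the local condition for these only); here `m`
of them are simultaneously prime, and `x` can be taken with at least `m` primes in `[x, x + R]`.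

For `h = 0`, `c = 1` the polynomials of (1) are `x + a_i` and `y + b_i` (the binary Goldbach problem with two clusters).

Proof: `Pool/Agent/L0h42/PP`.
-/

set_option autoImplicit false

namespace Pool.Agent.Results.MP_0da313_nt.ManyMembersPrime

open Finset Polynomial

/-- The polynomial `x + a`. -/
def f (a x _y : ℤ) : ℤ := x + a

/-- The polynomial `c y + h(x) + b`. -/
noncomputable def g (c : ℤ) (h : ℤ[X]) (b x y : ℤ) : ℤ := c * y + h.eval x + b

open Classical in
/-- The `x` with `x, y ≥ 1`, `x + y = n`, `Q x^e ≤ n`, for which `|x + a_i|` and `|c y + h(x) + b_i|` are prime for all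
`i ∈ I`. -/
noncomputable def solutions₁ {k : ℕ} (c : ℤ) (h : ℤ[X]) (a b : Fin k → ℤ) (Q e : ℕ) (I : Finset (Fin k)) (n : ℕ) :
    Finset ℕ :=
  (Icc 1 n).filter (fun x : ℕ => Q * x ^ e ≤ n ∧ ∃ y : ℕ, 1 ≤ y ∧ x + y = n ∧
    ∀ i ∈ I, (f (a i) x y).natAbs.Prime ∧ (g c h (b i) x y).natAbs.Prime)

/-- No prime divides all the values of the product of the `2 k` polynomials at the pairs `(x, n - x)`. -/
def NoFixed₁ {k : ℕ} (c : ℤ) (h : ℤ[X]) (a b : Fin k → ℤ) (n : ℕ) : Prop :=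
  ∀ p : ℕ, p.Prime → ∃ x : ℤ, ¬ (p : ℤ) ∣ ∏ i, (f (a i) x (n - x) * g c h (b i) x (n - x))

open Classical in
/-- The number of the `n ≤ N` without local obstruction for which no `2 m` of the polynomials (with common indices) are
simultaneously prime for at least `n^(1/e) / (log n)^E` pairs. -/
noncomputable def exceptions₁ {k : ℕ} (c : ℤ) (h : ℤ[X]) (a b : Fin k → ℤ) (Q e m E N : ℕ) : ℕ :=
  ((Icc 1 N).filter (fun n : ℕ => NoFixed₁ c h a b n ∧ ¬ ∃ I : Finset (Fin k), I.card = m ∧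
    (n : ℝ) ^ (1 / (e : ℝ)) / Real.log n ^ E ≤ ((solutions₁ c h a b Q e I n).card : ℝ))).card

open Classical in
/-- The `x` with `x, y ≥ 1`, `x + y = n`, `Q x^e ≤ n`, with at least `m` primes in `[x, x + R]`, for which
`|c y + h(x) + b_i|` is prime for all `i ∈ I`. -/
noncomputable def solutions₂ {k : ℕ} (c : ℤ) (h : ℤ[X]) (b : Fin k → ℤ) (Q R m e : ℕ) (I : Finset (Fin k)) (n : ℕ) :
    Finset ℕ :=
  (Icc 1 n).filter (fun x : ℕ => Q * x ^ e ≤ n ∧ m ≤ ((Icc x (x + R)).filter Nat.Prime).card ∧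
    ∃ y : ℕ, 1 ≤ y ∧ x + y = n ∧ ∀ i ∈ I, (g c h (b i) x y).natAbs.Prime)

/-- No prime divides all the values of the product of the `k` polynomials at the pairs `(x, n - x)`. -/
def NoFixed₂ {k : ℕ} (c : ℤ) (h : ℤ[X]) (b : Fin k → ℤ) (n : ℕ) : Prop :=
  ∀ p : ℕ, p.Prime → ∃ x : ℤ, ¬ (p : ℤ) ∣ ∏ i, g c h (b i) x (n - x)

open Classical in
/-- The number of the `n ≤ N` without local obstruction for which no `m` of the polynomials are simultaneously prime for at
least `n^(1/e) / (log n)^E` pairs. -/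
noncomputable def exceptions₂ {k : ℕ} (c : ℤ) (h : ℤ[X]) (b : Fin k → ℤ) (Q R m e E N : ℕ) : ℕ :=
  ((Icc 1 N).filter (fun n : ℕ => NoFixed₂ c h b n ∧ ¬ ∃ I : Finset (Fin k), I.card = m ∧
    (n : ℝ) ^ (1 / (e : ℝ)) / Real.log n ^ E ≤ ((solutions₂ c h b Q R m e I n).card : ℝ))).card

lemma sign_c (c : ℤ) (hc : c ≠ 0) : ∃ (s : ℤ) (c' : ℕ), (s = 1 ∨ s = -1) ∧ 1 ≤ c' ∧ (c' : ℤ) = s * c := by
  rcases lt_or_gt_of_ne hc with h | h
  · exact ⟨-1, c.natAbs, Or.inr rfl, by omega, by omega⟩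
  · exact ⟨1, c.natAbs, Or.inl rfl, by omega, by omega⟩

lemma val_eq (s c : ℤ) (c' : ℕ) (hc' : (c' : ℤ) = s * c) (h : ℤ[X]) (n : ℤ) (b x : ℤ) :
    (c' : ℤ) * n + (C s * (h - C c * Polynomial.X)).eval x + s * b = s * g c h b x (n - x) := by
  unfold g
  simp only [eval_sub, eval_mul, eval_C, eval_X, hc']
  ring

lemma nat_prime {s z : ℤ} (hs : s = 1 ∨ s = -1) (h : (s * z).toNat.Prime) : z.natAbs.Prime := by
  have h1 := h.pos
  have h2 : 0 < s * z := by omega
  have h3 : (s * z).toNat = z.natAbs := by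
    rcases hs with h | h
    · rw [h, one_mul] at h2 ⊢; omega
    · rw [h] at h2 ⊢; omega
  rwa [h3] at h

lemma deg_eq (s : ℤ) (hs : s = 1 ∨ s = -1) (F : ℤ[X]) : (C s * F).natDegree = F.natDegree := by
  rcases hs with h | h
  · rw [h, C_1, one_mul]
  · rw [h]
    have : (C (-1 : ℤ)) * F = -F := by simp
    rw [this, natDegree_neg]

lemma inj_mul {k : ℕ} (s : ℤ) (hs : s = 1 ∨ s = -1) (b : Fin k → ℤ) (hb : Function.Injective b) :
    Function.Injective (fun i => s * b i) := by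
  intro i j hij
  apply hb
  simp only at hij
  rcases hs with h | h <;> rw [h] at hij <;> linarith

lemma dvd_sign {s z : ℤ} (hs : s = 1 ∨ s = -1) {p : ℤ} (h : p ∣ s * z) : p ∣ z := by
  rcases hs with h1 | h1
  · rwa [h1, one_mul] at h
  · rw [h1, neg_one_mul, dvd_neg] at h; exact h

theorem result (m e : ℕ) (hm : 1 ≤ m) (he : 1 ≤ e) :
    (∃ k : ℕ, ∀ (c : ℤ) (h : ℤ[X]), c ≠ 0 → (h - C c * Polynomial.X).natDegree = e → ∀ Q : ℕ, ∀ a b : Fin k → ℤ,
      Function.Injective a → Function.Injective b → ∀ ε : ℝ, 0 < ε → ∃ E N₀ : ℕ, ∀ N : ℕ, N₀ ≤ N →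
      (exceptions₁ c h a b Q e m E N : ℝ) ≤ ε * N) ∧
    (∃ k R : ℕ, ∀ (c : ℤ) (h : ℤ[X]), c ≠ 0 → (h - C c * Polynomial.X).natDegree = e → ∀ Q : ℕ, ∀ b : Fin k → ℤ,
      Function.Injective b → ∀ ε : ℝ, 0 < ε → ∃ E N₀ : ℕ, ∀ N : ℕ, N₀ ≤ N →
      (exceptions₂ c h b Q R m e E N : ℝ) ≤ ε * N) := by
  classical
  have hrange : ∀ Q x n : ℕ, 1 ≤ x → (Q + 2) * x ^ e ≤ n → Q * x ^ e ≤ n ∧ ∃ y : ℕ, 1 ≤ y ∧ x + y = n := by
    intro Q x n hx hn
    have h1 : x ≤ x ^ e := Nat.le_self_pow (by omega) x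
    have h2 : (Q + 2) * x ^ e = Q * x ^ e + 2 * x ^ e := by ring
    exact ⟨by omega, n - x, by omega, by omega⟩
  refine ⟨?_, ?_⟩
  · obtain ⟨k, -, hA⟩ := Pool.Agent.L0h42.PP.thm_A m e hm he
    refine ⟨k, fun c h hc hdeg Q a b ha hb ε hε => ?_⟩
    obtain ⟨s, c', hs, hc1, hc2⟩ := sign_c c hc
    obtain ⟨E, N₀, h0⟩ := hA (C s * (h - C c * Polynomial.X)) (by rw [deg_eq s hs, hdeg]) (Q + 2) c' (by omega) hc1 a
      (fun i => s * b i) ha (inj_mul s hs b hb) ε hε
    refine ⟨E, N₀, fun N hN => ?_⟩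
    refine le_trans (Nat.cast_le.2 ?_) (h0 N hN)
    unfold exceptions₁
    apply card_le_card
    intro n hn
    rw [mem_filter] at hn ⊢
    refine ⟨hn.1, ?_, ?_⟩
    · intro p hp
      obtain ⟨x, hx⟩ := hn.2.1 p hp
      refine ⟨x, fun i => ⟨fun hd => hx ?_, fun hd => hx ?_⟩⟩
      · refine dvd_trans ?_ (dvd_prod_of_mem _ (mem_univ i))
        exact hd.mul_right _
      · simp only at hd
        rw [val_eq s c c' hc2] at hd
        refine dvd_trans ?_ (dvd_prod_of_mem _ (mem_univ i))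
        exact (dvd_sign hs hd).mul_left _
    · rintro ⟨I, hI1, hI2⟩
      apply hn.2.2
      refine ⟨I, hI1, hI2.trans (Nat.cast_le.2 (card_le_card ?_))⟩
      intro x hx
      unfold Pool.Agent.L0h42.PP.Rp at hx
      unfold solutions₁
      rw [mem_filter] at hx ⊢
      obtain ⟨h1, h2, h3⟩ := hx
      obtain ⟨h4, y, hy1, hy2⟩ := hrange Q x n (mem_Icc.1 h1).1 h2
      refine ⟨h1, h4, y, hy1, hy2, fun i hi => ?_⟩
      obtain ⟨h5, h6⟩ := h3 i hi
      rw [val_eq s c c' hc2] at h6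
      have e1 : (n : ℤ) - x = y := by rw [← hy2]; push_cast; ring
      rw [e1] at h6
      refine ⟨?_, nat_prime hs h6⟩
      exact nat_prime (s := 1) (Or.inl rfl) (by rw [one_mul]; exact h5)
  · obtain ⟨k, R, -, hB⟩ := Pool.Agent.L0h42.PP.thm_B m e hm he
    refine ⟨k, R, fun c h hc hdeg Q b hb ε hε => ?_⟩
    obtain ⟨s, c', hs, hc1, hc2⟩ := sign_c c hc
    obtain ⟨E, N₀, h0⟩ := hB (C s * (h - C c * Polynomial.X)) (by rw [deg_eq s hs, hdeg]) (Q + 2) c' (by omega) hc1
      (fun i => s * b i) (inj_mul s hs b hb) ε hε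
    refine ⟨E, N₀, fun N hN => ?_⟩
    refine le_trans (Nat.cast_le.2 ?_) (h0 N hN)
    unfold exceptions₂
    apply card_le_card
    intro n hn
    rw [mem_filter] at hn ⊢
    refine ⟨hn.1, ?_, ?_⟩
    · intro p hp
      obtain ⟨x, hx⟩ := hn.2.1 p hp
      refine ⟨x, fun i hd => hx ?_⟩
      simp only at hd
      rw [val_eq s c c' hc2] at hd
      exact dvd_trans (dvd_sign hs hd) (dvd_prod_of_mem _ (mem_univ i))
    · rintro ⟨I, hI1, hI2⟩
      apply hn.2.2
      refine ⟨I, hI1, hI2.trans (Nat.cast_le.2 (card_le_card ?_))⟩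
      intro x hx
      unfold Pool.Agent.L0h42.PP.Rb at hx
      unfold solutions₂
      rw [mem_filter] at hx ⊢
      obtain ⟨h1, h2, h3, h4⟩ := hx
      obtain ⟨h5, y, hy1, hy2⟩ := hrange Q x n (mem_Icc.1 h1).1 h2
      refine ⟨h1, h5, h3.trans ?_, y, hy1, hy2, fun i hi => ?_⟩
      · apply card_le_card_of_injOn (fun j => x + j)
        · intro j hj
          rw [mem_coe, mem_filter, mem_range] at hj
          rw [mem_coe, mem_filter, mem_Icc]
          show (x ≤ x + j ∧ x + j ≤ x + R) ∧ (x + j).Prime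
          exact ⟨⟨by omega, by omega⟩, hj.2⟩
        · intro j _ j' _ h
          simpa using h
      · have h6 := h4 i hi
        rw [val_eq s c c' hc2] at h6
        have e1 : (n : ℤ) - x = y := by rw [← hy2]; push_cast; ring
        rw [e1] at h6
        exact nat_prime hs h6

end Pool.Agent.Results.MP_0da313_nt.ManyMembersPrime
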