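import Pool.Agent.L0h41.QN.S4

set_option autoImplicit false

/-!
# Almost primes `|f(x, y)|` with `x + y = n` and small `x`, for almost all `n`, for ALL irreducible polynomials of
degree two in `y`

Let `f(x, y)` in `ℤ[x, y]` be of degree two in `y`, irreducible over `ℚ` and not a polynomial in `x + y` (no other
condition: the degree in `x` is arbitrary). For all `κ, ε > 0` and all large `X` all but at most `ε X` of the integers
`n ≤ X` for which no prime divides all the numbers `f(x, n - x)` have, for each `T` between `(log X)^(1 + κ)` and a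
power of `log X`, at least `T / (log X)^(1 + κ)` representations `n = x + y` with `x, y ≥ 1`, `x ≤ T`, such that
`|f(x, y)| ≥ 2` has at most FIVE prime factors, counted with multiplicity, all of them `≥ X^(1/10)`. The same holds
in all intervals of length `≥ X^θ`, with `k > 1/8 + 25/(6θ)` prime factors.

Proof: `f(x, n - x) = a(x) n² + b(x) n + c(x)`; `Pool/Agent/L0h41/QN`.
-/

namespace Pool.Agent.Results.MP_0da313_nt.QuadraticInY

open Finset Polynomial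
open scoped Polynomial.Bivariate
open Pool.Agent.L0h41.QN

/-- No prime divides `f(x, n - x)` for every `x`. -/
def NoFixed (f : ℤ[X][Y]) (n : ℕ) : Prop :=
  ∀ p : ℕ, p.Prime → ∃ x : ℤ, ¬ (p : ℤ) ∣ f.evalEval x ((n : ℤ) - x)

open Classical in
/-- The number of the integers `1 ≤ x ≤ T` for which there is a positive integer `y` with `x + y = n` such that
`|f(x, y)| ≥ 2` has at most `k` prime factors, counted with multiplicity, all of them `≥ w`. -/
noncomputable def smallX (f : ℤ[X][Y]) (n k T : ℕ) (w : ℝ) : ℕ :=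
  ((Icc 1 T).filter (fun x : ℕ => ∃ y : ℕ, 1 ≤ y ∧ x + y = n ∧ 2 ≤ (f.evalEval (x : ℤ) (y : ℤ)).natAbs ∧
    (f.evalEval (x : ℤ) (y : ℤ)).natAbs.primeFactorsList.length ≤ k ∧
    ∀ p : ℕ, p.Prime → (p : ℤ) ∣ f.evalEval (x : ℤ) (y : ℤ) → w ≤ (p : ℝ))).card

lemma val (f : ℤ[X][Y]) (hdeg : f.natDegree = 2) (x : ℤ) (n : ℕ) :
    (Phi (f.coeff 2) (f.coeff 1 - 2 * Polynomial.X * f.coeff 2)
      (Polynomial.X ^ 2 * f.coeff 2 - Polynomial.X * f.coeff 1 + f.coeff 0) n).eval x =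
      f.evalEval x ((n : ℤ) - x) := by
  rw [Phi_eval, eval_two f hdeg]
  simp
  ring

lemma cnt_le (f : ℤ[X][Y]) (hdeg : f.natDegree = 2) (n k T : ℕ) (w : ℝ) (hT : T < n) :
    cntQ3 (ev (f.coeff 2)) (ev (f.coeff 1 - 2 * Polynomial.X * f.coeff 2))
      (ev (Polynomial.X ^ 2 * f.coeff 2 - Polynomial.X * f.coeff 1 + f.coeff 0))
      (GD (f.coeff 2) (f.coeff 1 - 2 * Polynomial.X * f.coeff 2)
        (Polynomial.X ^ 2 * f.coeff 2 - Polynomial.X * f.coeff 1 + f.coeff 0)) k T n w ≤ smallX f n k T w := by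
  classical
  unfold cntQ3 smallX
  apply card_le_card
  intro j hj
  rw [mem_filter] at hj ⊢
  obtain ⟨h1, _, h2, h3, h4⟩ := hj
  have hj2 := mem_Icc.1 h1
  obtain ⟨y, hy⟩ : ∃ y : ℕ, n = j + y := ⟨n - j, by omega⟩
  have e : ((n : ℕ) : ℤ) - (j : ℤ) = (y : ℤ) := by rw [hy]; push_cast; ring
  have hval : FQ3 (ev (f.coeff 2)) (ev (f.coeff 1 - 2 * Polynomial.X * f.coeff 2))
      (ev (Polynomial.X ^ 2 * f.coeff 2 - Polynomial.X * f.coeff 1 + f.coeff 0)) j n =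
      (f.evalEval (j : ℤ) (y : ℤ)).natAbs := by
    rw [← e, ← val f hdeg (j : ℤ) n, Phi_eval]
    rfl
  rw [hval] at h2 h3
  refine ⟨h1, y, by omega, hy.symm, h2, h3, ?_⟩
  intro p hp hd
  apply h4 p hp
  rw [hval]
  exact Int.natCast_dvd.1 hd

open Classical in
theorem result (f : ℤ[X][Y]) (hdeg : f.natDegree = 2)
    (hirr : Irreducible (f.map (mapRingHom (Int.castRingHom ℚ))))
    (hxy : ¬ ∃ F : ℤ[X], ∀ x y : ℤ, f.evalEval x y = F.eval (x + y))
    (θ κ ε : ℝ) (k B : ℕ) (hθ : 0 < θ) (hθ1 : θ ≤ 1) (hk : 1 / 8 + 25 / (6 * θ) < k) (hκ : 0 < κ) (hε : 0 < ε) :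
    ∃ X₀ : ℕ, ∀ X : ℕ, X₀ ≤ X → ∀ Z L T : ℕ, (X : ℝ) ^ θ ≤ L → Z + L ≤ X →
      Real.log X ^ (1 + κ) ≤ T → (T : ℝ) ≤ Real.log X ^ B →
      (((Ioc Z (Z + L)).filter (fun n : ℕ => NoFixed f n ∧
        (smallX f n k T ((X : ℝ) ^ (θ / 10)) : ℝ) * Real.log X ^ (1 + κ) < T)).card : ℝ) ≤ ε * L := by
  obtain ⟨hrel, hD⟩ := irr_two f hdeg hirr
  obtain ⟨a, ha⟩ : ∃ a, a = f.coeff 2 := ⟨_, rfl⟩
  obtain ⟨b, hb⟩ : ∃ b, b = f.coeff 1 - 2 * Polynomial.X * f.coeff 2 := ⟨_, rfl⟩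
  obtain ⟨c, hc⟩ : ∃ c, c = Polynomial.X ^ 2 * f.coeff 2 - Polynomial.X * f.coeff 1 + f.coeff 0 := ⟨_, rfl⟩
  have hnc : 0 < (f.coeff 2).natDegree ∨ 0 < (f.coeff 1 - 2 * Polynomial.X * f.coeff 2).natDegree ∨
      0 < (Polynomial.X ^ 2 * f.coeff 2 - Polynomial.X * f.coeff 1 + f.coeff 0).natDegree := by
    by_contra hcon
    push Not at hcon
    obtain ⟨d1, d2, d3⟩ := hcon
    rw [← ha] at d1
    rw [← hb] at d2
    rw [← hc] at d3
    apply hxy
    refine ⟨C (a.coeff 0) * Polynomial.X ^ 2 + C (b.coeff 0) * Polynomial.X + C (c.coeff 0), ?_⟩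
    intro x y
    have e1 : a.eval x = a.coeff 0 := by
      rw [eq_C_of_natDegree_le_zero d1, eval_C, coeff_C_zero]
    have e2 : b.eval x = b.coeff 0 := by
      rw [eq_C_of_natDegree_le_zero d2, eval_C, coeff_C_zero]
    have e3 : c.eval x = c.coeff 0 := by
      rw [eq_C_of_natDegree_le_zero d3, eval_C, coeff_C_zero]
    have e4 : f.evalEval x y = a.eval x * (x + y) ^ 2 + b.eval x * (x + y) + c.eval x := by
      rw [eval_two f hdeg, ha, hb, hc]
      simp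
      ring
    rw [e4, e1, e2, e3]
    simp
  obtain ⟨u, v, t, N, H⟩ := fam_of (f.coeff 2) (f.coeff 1) (f.coeff 0) hrel hD hnc
  have hmain := H.main θ (ε / 2) κ k B hθ hθ1 hk hκ (half_pos hε)
  have hlog := Pool.Agent.TH464.PW.logpow_rpow B (2 / ε) θ (by positivity) hθ
  obtain ⟨X₀, hX₀⟩ := Filter.eventually_atTop.1 (hmain.and hlog)
  refine ⟨X₀, ?_⟩
  intro X hX Z L T hL hZL hT1 hT2
  obtain ⟨b1, b2⟩ := hX₀ X hX
  have b1 := b1 Z L T hL hZL hT1 hT2
  have b3 : (T : ℝ) ≤ ε / 2 * L := by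
    have c1 := b2.trans hL
    rw [div_mul_eq_mul_div, div_le_iff₀ hε] at c1
    linarith
  obtain ⟨E1, hE1⟩ : ∃ E1, E1 = ((Ioc Z (Z + L)).filter (fun n => AdmF (f.coeff 2)
      (f.coeff 1 - 2 * Polynomial.X * f.coeff 2)
      (Polynomial.X ^ 2 * f.coeff 2 - Polynomial.X * f.coeff 1 + f.coeff 0) n ∧
        (cntQ3 (ev (f.coeff 2)) (ev (f.coeff 1 - 2 * Polynomial.X * f.coeff 2))
      (ev (Polynomial.X ^ 2 * f.coeff 2 - Polynomial.X * f.coeff 1 + f.coeff 0))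
      (GD (f.coeff 2) (f.coeff 1 - 2 * Polynomial.X * f.coeff 2)
        (Polynomial.X ^ 2 * f.coeff 2 - Polynomial.X * f.coeff 1 + f.coeff 0)) k T n ((X : ℝ) ^ (θ / 10)) : ℝ) *
          Real.log X ^ (1 + κ) < T)) := ⟨_, rfl⟩
  rw [← hE1] at b1
  have hlp : 0 ≤ Real.log X ^ (1 + κ) := Real.rpow_nonneg (Real.log_natCast_nonneg X) _
  have hsub : (Ioc Z (Z + L)).filter (fun n : ℕ => NoFixed f n ∧
        (smallX f n k T ((X : ℝ) ^ (θ / 10)) : ℝ) * Real.log X ^ (1 + κ) < T) ⊆ E1 ∪ Ioc 0 T := by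
    intro n hn
    rw [mem_filter] at hn
    obtain ⟨a1, a2, a3⟩ := hn
    have hn1 : 1 ≤ n := by
      have := mem_Ioc.1 a1
      omega
    rw [mem_union]
    rcases Nat.lt_or_ge T n with h1 | h1
    · left
      rw [hE1, mem_filter]
      refine ⟨a1, ?_, ?_⟩
      · intro p hp
        obtain ⟨x, hx⟩ := a2 p hp
        have hp0 : (0 : ℤ) < p := by exact_mod_cast hp.pos
        refine ⟨(x % p).toNat, ?_⟩
        have hr : (((x % p).toNat : ℕ) : ℤ) = x % p := Int.toNat_of_nonneg (Int.emod_nonneg _ hp0.ne')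
        rw [hr]
        intro hd
        apply hx
        rw [← val f hdeg x n]
        have h3 := sub_dvd_eval_sub (x % (p : ℤ)) x (Phi (f.coeff 2) (f.coeff 1 - 2 * Polynomial.X * f.coeff 2)
          (Polynomial.X ^ 2 * f.coeff 2 - Polynomial.X * f.coeff 1 + f.coeff 0) n)
        have h4 : (p : ℤ) ∣ x % (p : ℤ) - x := (Int.dvd_self_sub_emod).neg_right.trans (by rw [neg_sub])
        exact (dvd_iff_dvd_of_dvd_sub (h4.trans h3)).1 hd
      · have a4 : (cntQ3 (ev (f.coeff 2)) (ev (f.coeff 1 - 2 * Polynomial.X * f.coeff 2))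
            (ev (Polynomial.X ^ 2 * f.coeff 2 - Polynomial.X * f.coeff 1 + f.coeff 0))
            (GD (f.coeff 2) (f.coeff 1 - 2 * Polynomial.X * f.coeff 2)
              (Polynomial.X ^ 2 * f.coeff 2 - Polynomial.X * f.coeff 1 + f.coeff 0)) k T n
                ((X : ℝ) ^ (θ / 10)) : ℝ) ≤ smallX f n k T ((X : ℝ) ^ (θ / 10)) := by
          exact_mod_cast cnt_le f hdeg n k T ((X : ℝ) ^ (θ / 10)) h1
        exact lt_of_le_of_lt (mul_le_mul_of_nonneg_right a4 hlp) a3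
    · right
      rw [mem_Ioc]
      omega
  have h6 : ((E1 ∪ Ioc 0 T).card : ℝ) ≤ E1.card + T := by
    have := card_union_le E1 (Ioc 0 T)
    rw [Nat.card_Ioc, Nat.sub_zero] at this
    exact_mod_cast this
  have h7 : (((Ioc Z (Z + L)).filter (fun n : ℕ => NoFixed f n ∧
        (smallX f n k T ((X : ℝ) ^ (θ / 10)) : ℝ) * Real.log X ^ (1 + κ) < T)).card : ℝ) ≤
      (E1 ∪ Ioc 0 T).card := by exact_mod_cast card_le_card hsub
  linarith

end Pool.Agent.Results.MP_0da313_nt.QuadraticInY
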